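import Pool.Agent.Helper83.LA.EELA

/-!
# Norm of the resampled function
-/

set_option autoImplicit false

namespace Pool.Agent.Helper70.LA

open Finset

section eelc

variable {K : Type} [Fintype K] [DecidableEq K] {ι : Type} [DecidableEq ι]

/-- the error kernel of the resampling -/
noncomputable def kerr (U : ι → Finset K) (I : Finset ι) (Q : Set (K → Bool))
    (x y : K → Bool) : ℝ :=
  ind Q x * (ind {y | Good U I Q x y} y / mu U I Q x - 1)

/-- the majorant of the error kernel -/
noncomputable def kmaj (U : ι → Finset K) (I : Finset ι) (Q : Set (K → Bool)) (η : ℝ)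
    (x y : K → Bool) : ℝ :=
  ind {y | ¬ Good U I Q x y} y + 2 * (2 ^ I.card * η)

omit [DecidableEq ι] in
theorem kmaj_nonneg (U : ι → Finset K) (I : Finset ι) (Q : Set (K → Bool)) (η : ℝ)
    (hη : 0 ≤ η) (x y : K → Bool) : 0 ≤ kmaj U I Q η x y := by
  have h1 := ind_nonneg {y | ¬ Good U I Q x y} y
  have h2 : (0 : ℝ) ≤ 2 ^ I.card * η := by positivity
  unfold kmaj
  linarith

theorem abs_kerr_le (U : ι → Finset K) (I : Finset ι) (Q : Set (K → Bool)) (η : ℝ)
    (hη : 0 ≤ η) (hη1 : 2 ^ I.card * η ≤ 1 / 2) (hQ : SelfCons U I Q η) (x y : K → Bool) :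
    |kerr U I Q x y| ≤ ind Q x * kmaj U I Q η x y := by
  unfold kerr
  by_cases hx : x ∈ Q
  · rw [ind_of_mem hx, one_mul, one_mul]
    have hm := le_mu U I Q η hη hQ x hx
    have hm1 := mu_le_one U I Q x
    have hm0 : 0 < mu U I Q x := by linarith
    unfold kmaj
    by_cases hg : Good U I Q x y
    · have e1 : ind {y | Good U I Q x y} y = 1 := ind_of_mem (X := {y | Good U I Q x y}) hg
      have e2 : ind {y | ¬ Good U I Q x y} y = 0 :=
        ind_of_notMem (X := {y | ¬ Good U I Q x y}) (fun h => h hg)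
      rw [e1, e2, zero_add]
      have h1 : 1 / mu U I Q x - 1 = (1 - mu U I Q x) / mu U I Q x := by
        field_simp
      rw [h1, abs_of_nonneg (div_nonneg (by linarith) hm0.le), div_le_iff₀ hm0]
      have h2 : 1 - mu U I Q x ≤ 2 ^ I.card * η := by linarith
      have h3 : (0 : ℝ) ≤ 2 ^ I.card * η := by positivity
      nlinarith
    · have e1 : ind {y | Good U I Q x y} y = 0 := ind_of_notMem (X := {y | Good U I Q x y}) hg
      have e2 : ind {y | ¬ Good U I Q x y} y = 1 :=
        ind_of_mem (X := {y | ¬ Good U I Q x y}) hg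
      rw [e1, e2, zero_div, zero_sub, abs_neg, abs_one]
      have h3 : (0 : ℝ) ≤ 2 ^ I.card * η := by positivity
      linarith
  · rw [ind_of_notMem hx, zero_mul, zero_mul, abs_zero]

theorem av_kmaj_le (U : ι → Finset K) (I : Finset ι) (Q : Set (K → Bool)) (η : ℝ)
    (hη : 0 ≤ η) (hQ : SelfCons U I Q η) (x : K → Bool) (hx : x ∈ Q) :
    (av fun y => kmaj U I Q η x y) ≤ 3 * (2 ^ I.card * η) := by
  have h1 : (av fun y => kmaj U I Q η x y)
      = (av fun y => ind {y | ¬ Good U I Q x y} y) + 2 * (2 ^ I.card * η) := by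
    unfold kmaj
    rw [av_add, av_const]
  have h2 := av_not_good_le U I Q η hη hQ x hx
  have h3 : (av fun y => ind {y | ¬ Good U I Q x y} y) ≤ 2 ^ I.card * η := h2
  rw [h1]
  linarith

theorem kmaj_swap (U : ι → Finset K) (I : Finset ι)
    (hU : (I : Set ι).PairwiseDisjoint U) (Q : Set (K → Bool)) (η : ℝ) {S : Finset ι}
    (hS : S ⊆ I) (x y : K → Bool) :
    kmaj U I Q η (mix (US U S) x y) (mix (US U S) y x) = kmaj U I Q η x y := by
  unfold kmaj
  congr 1
  have h := good_swap U I hU Q hS x y
  by_cases hg : Good U I Q x y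
  · rw [ind_of_notMem (X := {y | ¬ Good U I Q x y}) (fun h => h hg),
      ind_of_notMem (X := {z | ¬ Good U I Q (mix (US U S) x y) z}) (fun h' => h' (h.2 hg))]
  · rw [ind_of_mem (X := {y | ¬ Good U I Q x y}) hg,
      ind_of_mem (X := {z | ¬ Good U I Q (mix (US U S) x y) z}) (fun h' => hg (h.1 h'))]

/-- the error term for one set `S` -/
theorem abs_error_le (U : ι → Finset K) (I : Finset ι)
    (hU : (I : Set ι).PairwiseDisjoint U) (Q : Set (K → Bool)) (η : ℝ)
    (hη : 0 ≤ η) (hη1 : 2 ^ I.card * η ≤ 1 / 2) (hQ : SelfCons U I Q η) (v g : (K → Bool) → ℝ)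
    (hg : ∀ x ∉ Q, g x = 0) {S : Finset ι} (hS : S ⊆ I) :
    |av fun x => av fun y => kerr U I Q x y * (v x * g (mix (US U S) x y))| ≤
      3 * (2 ^ I.card * η) * (√(av fun x => v x ^ 2) * √(av fun x => g x ^ 2)) := by
  set e : ℝ := 3 * (2 ^ I.card * η) with he
  have he0 : 0 ≤ e := by positivity
  -- replace the kernel by its absolute value
  have h1 : |av fun x => av fun y => kerr U I Q x y * (v x * g (mix (US U S) x y))| ≤
      av fun x => av fun y => |kerr U I Q x y| * (|v x| * |g (mix (US U S) x y)|) := by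
    refine (abs_av_le _).trans (av_mono fun x => (abs_av_le _).trans (av_mono fun y => ?_))
    rw [abs_mul, abs_mul]
  have hCS := av_av_mul_sq_le (fun x y => |kerr U I Q x y|) (fun x _ => |v x|)
    (fun x y => |g (mix (US U S) x y)|) (fun _ _ => abs_nonneg _)
  -- first factor
  have hA : (av fun x => av fun y => |kerr U I Q x y| * |v x| ^ 2) ≤ e * av fun x => v x ^ 2 := by
    rw [← av_mul_left]
    refine av_mono fun x => ?_
    rw [av_mul_right, sq_abs]
    refine mul_le_mul_of_nonneg_right ?_ (sq_nonneg _)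
    by_cases hx : x ∈ Q
    · refine (av_mono fun y => abs_kerr_le U I Q η hη hη1 hQ x y).trans ?_
      simp only [ind_of_mem hx, one_mul]
      exact av_kmaj_le U I Q η hη hQ x hx
    · have : ∀ y, |kerr U I Q x y| = 0 := by
        intro y
        unfold kerr
        rw [ind_of_notMem hx, zero_mul, abs_zero]
      simp only [this]
      rw [av_const]
      exact he0
  -- second factor
  have hB : (av fun x => av fun y => |kerr U I Q x y| * |g (mix (US U S) x y)| ^ 2)
      ≤ e * av fun x => g x ^ 2 := by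
    have hB1 : (av fun x => av fun y => |kerr U I Q x y| * |g (mix (US U S) x y)| ^ 2)
        ≤ av fun x => av fun y => kmaj U I Q η (mix (US U S) x y) (mix (US U S) y x) *
          g (mix (US U S) x y) ^ 2 := by
      refine av_mono fun x => av_mono fun y => ?_
      rw [sq_abs, kmaj_swap U I hU Q η hS x y]
      refine mul_le_mul_of_nonneg_right ?_ (sq_nonneg _)
      refine (abs_kerr_le U I Q η hη hη1 hQ x y).trans ?_
      have h2 := ind_le_one Q x
      have h3 := kmaj_nonneg U I Q η hη x y
      nlinarith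
    have hB2 := av_av_swap (US U S) (fun z w => kmaj U I Q η z w * g z ^ 2)
    refine hB1.trans (le_of_eq_of_le hB2 ?_)
    rw [← av_mul_left]
    refine av_mono fun x => ?_
    rw [av_mul_right]
    by_cases hx : x ∈ Q
    · exact mul_le_mul_of_nonneg_right (av_kmaj_le U I Q η hη hQ x hx) (sq_nonneg _)
    · rw [hg x hx]
      simp
  have hv2 : 0 ≤ av fun x => v x ^ 2 := av_nonneg fun _ => sq_nonneg _
  have hg2 : 0 ≤ av fun x => g x ^ 2 := av_nonneg fun _ => sq_nonneg _
  refine h1.trans ?_
  refine abs_le_of_sq_le_sq' ?_ (by positivity) |>.2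
  have hA0 : 0 ≤ av fun x => av fun y => |kerr U I Q x y| * |v x| ^ 2 :=
    av_nonneg fun x => av_nonneg fun y => by positivity
  have hB0 : 0 ≤ av fun x => av fun y => |kerr U I Q x y| * |g (mix (US U S) x y)| ^ 2 :=
    av_nonneg fun x => av_nonneg fun y => by positivity
  refine hCS.trans ((mul_le_mul hA hB hB0 (by positivity)).trans (le_of_eq ?_))
  have e3 : (3 * (2 ^ I.card * η) * (√(av fun x => v x ^ 2) * √(av fun x => g x ^ 2))) ^ 2
      = e ^ 2 * (√(av fun x => v x ^ 2) ^ 2 * √(av fun x => g x ^ 2) ^ 2) := by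
    rw [he]
    ring
  rw [e3, Real.sq_sqrt hv2, Real.sq_sqrt hg2]
  ring

theorem norm_resample_le (U : ι → Finset K) (I : Finset ι)
    (hU : (I : Set ι).PairwiseDisjoint U) (Q : Set (K → Bool)) (η : ℝ)
    (hη : 0 ≤ η) (hη1 : 2 ^ I.card * η ≤ 1 / 2) (hQ : SelfCons U I Q η) (v : (K → Bool) → ℝ)
    (hv : ∀ x ∉ Q, v x = 0) :
    √(av fun x => resample U I Q v x ^ 2) ≤
      (∑ S ∈ I.powerset.erase ∅, √(av fun x => EU (US U S) v x ^ 2))
        + 3 * 4 ^ I.card * η * √(av fun x => v x ^ 2) := by
  set g := resample U I Q v with hg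
  have hgQ : ∀ z ∉ Q, g z = 0 := fun z hz => resample_support U I Q v z hz
  set Ng := √(av fun x => g x ^ 2) with hNg
  set Nv := √(av fun x => v x ^ 2) with hNv
  have hNg0 : 0 ≤ Ng := Real.sqrt_nonneg _
  have hNv0 : 0 ≤ Nv := Real.sqrt_nonneg _
  have hg2 : 0 ≤ av fun x => g x ^ 2 := av_nonneg fun _ => sq_nonneg _
  -- expansion of the square
  have hker : ∀ x y, (v x / mu U I Q x) * ind {y | Good U I Q x y} y
      = v x + kerr U I Q x y * v x := by
    intro x y
    unfold kerr
    by_cases hx : x ∈ Q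
    · have hm := le_mu U I Q η hη hQ x hx
      have hm0 : 0 < mu U I Q x := by linarith
      rw [ind_of_mem hx]
      field_simp
      ring
    · rw [hv x hx]
      simp
  have hexp : (av fun z => g z * g z) = ∑ S ∈ I.powerset.erase ∅, (-1 : ℝ) ^ (S.card + 1) *
      ((av fun x => av fun y => v x * g (mix (US U S) x y)) +
        av fun x => av fun y => kerr U I Q x y * (v x * g (mix (US U S) x y))) := by
    rw [hg, av_resample_mul U I hU Q v, ← hg]
    have h1 : ∀ x, (av fun y => (v x / mu U I Q x) * (ind {y | Good U I Q x y} y *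
        ∑ S ∈ I.powerset.erase ∅, (-1) ^ (S.card + 1) * g (mix (US U S) x y)))
        = ∑ S ∈ I.powerset.erase ∅, (-1 : ℝ) ^ (S.card + 1) *
          ((av fun y => v x * g (mix (US U S) x y)) +
            av fun y => kerr U I Q x y * (v x * g (mix (US U S) x y))) := by
      intro x
      have h2 : (fun y => (v x / mu U I Q x) * (ind {y | Good U I Q x y} y *
          ∑ S ∈ I.powerset.erase ∅, (-1) ^ (S.card + 1) * g (mix (US U S) x y)))
          = fun y => ∑ S ∈ I.powerset.erase ∅, (-1 : ℝ) ^ (S.card + 1) *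
            (v x * g (mix (US U S) x y) + kerr U I Q x y * (v x * g (mix (US U S) x y))) := by
        funext y
        rw [← mul_assoc, hker x y, mul_sum]
        refine sum_congr rfl fun S _ => ?_
        ring
      rw [h2, av_sum]
      refine sum_congr rfl fun S _ => ?_
      rw [av_mul_left, av_add]
    simp only [h1]
    rw [av_sum]
    refine sum_congr rfl fun S _ => ?_
    rw [av_mul_left, av_add]
  -- bound of one term
  have hterm : ∀ S ∈ I.powerset.erase ∅, (-1 : ℝ) ^ (S.card + 1) *
      ((av fun x => av fun y => v x * g (mix (US U S) x y)) +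
        av fun x => av fun y => kerr U I Q x y * (v x * g (mix (US U S) x y)))
      ≤ √(av fun x => EU (US U S) v x ^ 2) * Ng + 3 * (2 ^ I.card * η) * (Nv * Ng) := by
    intro S hS
    have hSI : S ⊆ I := mem_powerset.1 (mem_of_mem_erase hS)
    have h1 : (av fun x => av fun y => v x * g (mix (US U S) x y))
        = av fun x => EU (US U S) v x * g x := by
      have : (fun x => av fun y => v x * g (mix (US U S) x y)) = fun x => v x * EU (US U S) g x := by
        funext x
        rw [av_mul_left]
        rfl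
      rw [this, av_mul_EU]
    have h2 := av_mul_le_sqrt (fun x => EU (US U S) v x) g
    have h3 := abs_error_le U I hU Q η hη hη1 hQ v g hgQ hSI
    rw [h1]
    refine (le_abs_self _).trans ?_
    rw [abs_mul, abs_pow, abs_neg, abs_one, one_pow, one_mul]
    refine (abs_add_le _ _).trans ?_
    exact add_le_add h2 h3
  have hsum : Ng * Ng ≤ ((∑ S ∈ I.powerset.erase ∅, √(av fun x => EU (US U S) v x ^ 2))
        + 3 * 4 ^ I.card * η * Nv) * Ng := by
    have e1 : Ng * Ng = av fun z => g z * g z := by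
      rw [hNg, Real.mul_self_sqrt hg2]
      congr 1
      funext x
      ring
    rw [e1, hexp]
    refine (sum_le_sum hterm).trans ?_
    rw [sum_add_distrib, ← sum_mul, sum_const, add_mul, nsmul_eq_mul]
    have hc : ((I.powerset.erase ∅).card : ℝ) ≤ 2 ^ I.card := by
      have : (I.powerset.erase ∅).card ≤ 2 ^ I.card := by
        rw [← card_powerset]
        exact card_le_card (erase_subset _ _)
      exact_mod_cast this
    have h4 : (0 : ℝ) ≤ 3 * (2 ^ I.card * η) * (Nv * Ng) := by positivity
    have h5 : (4 : ℝ) ^ I.card = 2 ^ I.card * 2 ^ I.card := by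
      rw [← mul_pow]
      norm_num
    have h6 : ((I.powerset.erase ∅).card : ℝ) * (3 * (2 ^ I.card * η) * (Nv * Ng))
        ≤ 2 ^ I.card * (3 * (2 ^ I.card * η) * (Nv * Ng)) :=
      mul_le_mul_of_nonneg_right hc h4
    have h7 : 2 ^ I.card * (3 * (2 ^ I.card * η) * (Nv * Ng)) = 3 * 4 ^ I.card * η * Nv * Ng := by
      rw [h5]
      ring
    linarith
  rcases hNg0.eq_or_lt with h0 | h0
  · rw [← h0]
    have : 0 ≤ ∑ S ∈ I.powerset.erase ∅, √(av fun x => EU (US U S) v x ^ 2) :=
      sum_nonneg fun _ _ => Real.sqrt_nonneg _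
    positivity
  · exact le_of_mul_le_mul_right hsum h0

end eelc

end Pool.Agent.Helper70.LA
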