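import Pool.Agent.Helper53.LA.EELB
import Pool.Agent.Helper53.LA.EELC

/-!
# The exact extension lemma
-/

set_option autoImplicit false

namespace Pool.Agent.Helper70.LA

open Finset

section eel

variable {K : Type} [Fintype K] [DecidableEq K] {ι : Type} [DecidableEq ι]

omit [DecidableEq ι] in
/-- there is a solution of minimal norm -/
theorem exists_min_norm (U : ι → Finset K) (I : Finset ι) (Q : Set (K → Bool))
    (ψ : (K → Bool) → ℝ) (hψ : ∀ x ∉ Q, ψ x = 0) :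
    ∃ v : (K → Bool) → ℝ, (∀ x ∉ Q, v x = 0) ∧ (∀ i ∈ I, EU (U i) v = EU (U i) ψ) ∧
      ∀ w : (K → Bool) → ℝ, (∀ x ∉ Q, w x = 0) → (∀ i ∈ I, EU (U i) w = EU (U i) ψ) →
        (av fun x => v x ^ 2) ≤ av fun x => w x ^ 2 := by
  set C : Set (EuclideanSpace ℝ (K → Bool)) :=
    {y | (∀ x ∉ Q, y x = 0) ∧ ∀ i ∈ I, ∀ z, EU (U i) (fun x => y x) z = EU (U i) ψ z} with hC
  have hcl : IsClosed C := by
    have h1 : C = (⋂ x ∈ Qᶜ, {y : EuclideanSpace ℝ (K → Bool) | y x = 0}) ∩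
        ⋂ i ∈ I, ⋂ z, {y : EuclideanSpace ℝ (K → Bool) |
          EU (U i) (fun x => y x) z = EU (U i) ψ z} := by
      ext y
      simp [hC]
    rw [h1]
    refine IsClosed.inter ?_ ?_
    · refine isClosed_biInter fun x _ => ?_
      exact isClosed_eq (by fun_prop) continuous_const
    · refine isClosed_biInter fun i _ => isClosed_iInter fun z => ?_
      refine isClosed_eq ?_ continuous_const
      unfold EU av
      fun_prop
  have hne : C.Nonempty := by
    exact ⟨WithLp.toLp 2 ψ, fun x hx => hψ x hx, fun i _ z => rfl⟩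
  obtain ⟨y, hyC, hy⟩ := hcl.exists_infDist_eq_dist hne 0
  refine ⟨fun x => y x, hyC.1, fun i hi => funext fun z => hyC.2 i hi z, ?_⟩
  intro w hw hEw
  have hwC : WithLp.toLp 2 w ∈ C :=
    ⟨fun x hx => hw x hx, fun i hi z => congrFun (hEw i hi) z⟩
  have h2 : dist (0 : EuclideanSpace ℝ (K → Bool)) y ≤ dist 0 (WithLp.toLp 2 w) := by
    rw [← hy]
    exact Metric.infDist_le_dist_of_mem hwC
  rw [dist_zero_left, dist_zero_left, EuclideanSpace.norm_eq, EuclideanSpace.norm_eq] at h2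
  have h3 := (Real.sqrt_le_sqrt_iff (sum_nonneg fun _ _ => sq_nonneg _)).1 h2
  simp only [Real.norm_eq_abs, sq_abs] at h3
  unfold av
  gcongr

theorem eel (U : ι → Finset K) (I : Finset ι)
    (hU : (I : Set ι).PairwiseDisjoint U) (Q : Set (K → Bool)) (η : ℝ)
    (hη : 0 ≤ η) (hη1 : 6 * 4 ^ I.card * η ≤ 1) (hQ : SelfCons U I Q η) (ψ : (K → Bool) → ℝ)
    (hψ : ∀ x ∉ Q, ψ x = 0) :
    ∃ v : (K → Bool) → ℝ, (∀ x ∉ Q, v x = 0) ∧ (∀ i ∈ I, EU (U i) v = EU (U i) ψ) ∧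
      (av fun x => v x ^ 2) ≤ 4 ^ (I.card + 1) * ∑ i ∈ I, av fun x => EU (U i) ψ x ^ 2 := by
  obtain ⟨v, hv, hEv, hmin⟩ := exists_min_norm U I Q ψ hψ
  refine ⟨v, hv, hEv, ?_⟩
  have h24 : (2 : ℝ) ^ I.card ≤ 4 ^ I.card := pow_le_pow_left₀ (by norm_num) (by norm_num) _
  have hη2 : 2 ^ I.card * η ≤ 1 / 2 := by
    have := mul_le_mul_of_nonneg_right h24 hη
    linarith
  have hw := hmin (resample U I Q v) (fun x hx => resample_support U I Q v x hx)
    (fun i hi => (EU_resample U I hU Q η hη hη2 hQ v hv i hi).trans (hEv i hi))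
  have hN := norm_resample_le U I hU Q η hη hη2 hQ v hv
  set A := ∑ i ∈ I, av fun x => EU (U i) ψ x ^ 2 with hA
  have hA0 : 0 ≤ A := sum_nonneg fun i _ => av_nonneg fun x => sq_nonneg _
  have hS : ∀ S ∈ I.powerset.erase ∅, √(av fun x => EU (US U S) v x ^ 2) ≤ √A := by
    intro S hS
    have hSI : S ⊆ I := mem_powerset.1 (mem_of_mem_erase hS)
    obtain ⟨i, hi⟩ := nonempty_iff_ne_empty.2 (ne_of_mem_erase hS)
    refine Real.sqrt_le_sqrt ?_
    have hsub : U i ⊆ US U S := by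
      rw [← US_singleton U i]
      exact US_mono U (singleton_subset_iff.2 hi)
    refine (av_EU_sq_anti hsub v).trans ?_
    rw [hEv i (hSI hi)]
    exact single_le_sum (f := fun i => av fun x => EU (U i) ψ x ^ 2)
      (fun j _ => av_nonneg fun x => sq_nonneg _) (hSI hi)
  set Nv := √(av fun x => v x ^ 2) with hNv
  have hv2 : 0 ≤ av fun x => v x ^ 2 := av_nonneg fun _ => sq_nonneg _
  have hNv0 : 0 ≤ Nv := Real.sqrt_nonneg _
  have hle : Nv ≤ √(av fun x => resample U I Q v x ^ 2) := Real.sqrt_le_sqrt hw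
  have hsum : (∑ S ∈ I.powerset.erase ∅, √(av fun x => EU (US U S) v x ^ 2))
      ≤ 2 ^ I.card * √A := by
    refine (sum_le_sum hS).trans ?_
    rw [sum_const, nsmul_eq_mul]
    have hc : ((I.powerset.erase ∅).card : ℝ) ≤ 2 ^ I.card := by
      have : (I.powerset.erase ∅).card ≤ 2 ^ I.card := by
        rw [← card_powerset]
        exact card_le_card (erase_subset _ _)
      exact_mod_cast this
    exact mul_le_mul_of_nonneg_right hc (Real.sqrt_nonneg _)
  have hhalf : 3 * 4 ^ I.card * η * Nv ≤ 1 / 2 * Nv :=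
    mul_le_mul_of_nonneg_right (by linarith) hNv0
  have hfin : Nv ≤ 2 * (2 ^ I.card * √A) := by linarith
  have hsq : Nv ^ 2 = av fun x => v x ^ 2 := Real.sq_sqrt hv2
  rw [← hsq]
  have h1 : Nv ^ 2 ≤ (2 * (2 ^ I.card * √A)) ^ 2 := pow_le_pow_left₀ hNv0 hfin 2
  refine h1.trans (le_of_eq ?_)
  have h5 : (4 : ℝ) ^ I.card = 2 ^ I.card * 2 ^ I.card := by
    rw [← mul_pow]
    norm_num
  calc (2 * (2 ^ I.card * √A)) ^ 2 = 4 * (2 ^ I.card * 2 ^ I.card) * √A ^ 2 := by ring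
    _ = 4 ^ (I.card + 1) * A := by
      rw [Real.sq_sqrt hA0, ← h5, pow_succ]
      ring

end eel

end Pool.Agent.Helper70.LA
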