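import Pool.Agent.Helper83.LA.EELA

/-!
# Marginals of the resampled function
-/

set_option autoImplicit false

namespace Pool.Agent.Helper70.LA

open Finset

section eelb

variable {K : Type} [Fintype K] [DecidableEq K] {ι : Type} [DecidableEq ι]

/-- the alternating sum over nonempty sets of mixtures of an invariant function -/
theorem alt_sum_inv (U : ι → Finset K) (I : Finset ι) (h : (K → Bool) → ℝ) (i : ι) (hi : i ∈ I)
    (hinv : ∀ x y, h (mix (U i) x y) = h x) (x y : K → Bool) :
    ∑ S ∈ I.powerset.erase ∅, (-1) ^ (S.card + 1) * h (mix (US U S) x y) = h x := by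
  have key : ∀ t : Finset ι, h (mix (US U (insert i t)) x y) = h (mix (US U t) x y) := by
    intro t
    have e1 : US U (insert i t) = US U t ∪ U i := by
      rw [insert_eq, US_union, US_singleton, union_comm]
    have e2 : mix (U i) (mix (US U t) x y) y = mix (US U t ∪ U i) x y := by
      rw [mix_mix, mix_self]
    rw [e1, ← e2, hinv]
  have full : ∑ S ∈ I.powerset, (-1 : ℝ) ^ (S.card + 1) * h (mix (US U S) x y) = 0 := by
    have hI : I = insert i (I.erase i) := (insert_erase hi).symm
    rw [hI, sum_powerset_insert (notMem_erase i I), ← sum_add_distrib]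
    refine sum_eq_zero fun t ht => ?_
    have hit : i ∉ t := fun h' => notMem_erase i I (mem_powerset.1 ht h')
    rw [card_insert_of_notMem hit, key t]
    ring
  have h0 : (∅ : Finset ι) ∈ I.powerset := empty_mem_powerset I
  have := sum_erase_add I.powerset (fun S => (-1 : ℝ) ^ (S.card + 1) * h (mix (US U S) x y)) h0
  rw [full] at this
  simp only [card_empty, zero_add, pow_one, US_empty, mix_empty] at this
  linarith

theorem EU_resample (U : ι → Finset K) (I : Finset ι)
    (hU : (I : Set ι).PairwiseDisjoint U) (Q : Set (K → Bool)) (η : ℝ)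
    (hη : 0 ≤ η) (hη1 : 2 ^ I.card * η ≤ 1 / 2) (hQ : SelfCons U I Q η) (v : (K → Bool) → ℝ)
    (hv : ∀ x ∉ Q, v x = 0) (i : ι) (hi : i ∈ I) :
    EU (U i) (resample U I Q v) = EU (U i) v := by
  set d : (K → Bool) → ℝ := fun x => resample U I Q v x - v x with hd
  set h : (K → Bool) → ℝ := EU (U i) d with hh
  have hinv : ∀ x y, h (mix (U i) x y) = h x := fun x y => EU_inv (subset_refl _) d x y
  -- the resampling duality applied to `h`
  have h1 : (av fun z => resample U I Q v z * h z) = av fun z => v z * h z := by
    rw [av_resample_mul U I hU Q v h]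
    congr 1
    funext x
    have e : ∀ y, (v x / mu U I Q x) * (ind {y | Good U I Q x y} y *
        ∑ S ∈ I.powerset.erase ∅, (-1) ^ (S.card + 1) * h (mix (US U S) x y))
        = ((v x / mu U I Q x) * h x) * ind {y | Good U I Q x y} y := by
      intro y
      rw [alt_sum_inv U I h i hi hinv x y]
      ring
    simp only [e]
    rw [av_mul_left]
    change (v x / mu U I Q x) * h x * mu U I Q x = v x * h x
    by_cases hx : x ∈ Q
    · have hm : 0 < mu U I Q x := by
        have := le_mu U I Q η hη hQ x hx
        linarith
      field_simp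
    · rw [hv x hx]
      simp
  have h2 : (av fun x => h x * d x) = 0 := by
    have e : (fun x => h x * d x) = fun x => resample U I Q v x * h x - v x * h x := by
      funext x
      simp only [hd]
      ring
    rw [e, av_sub, h1, sub_self]
  have h3 : (av fun x => h x * h x) = 0 := by
    have := av_mul_inv (U := U i) hinv d
    rw [← h2, this]
  have h4 : ∀ x, h x = 0 := by
    intro x
    have := av_eq_zero (f := fun x => h x * h x) (fun x => mul_self_nonneg _) h3 x
    exact mul_self_eq_zero.1 this
  funext x
  have h5 := h4 x
  have h6 := EU_sub (U i) (resample U I Q v) v x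
  have h7 : h x = EU (U i) (fun x => resample U I Q v x - v x) x := rfl
  rw [h7, h6] at h5
  linarith

end eelb

end Pool.Agent.Helper70.LA
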