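import Pool.Agent.Helper53.LA.EEL
import Pool.Agent.Helper34.LA.Core
import Pool.Agent.Helper56.LA.Grid

/-!
The recursive construction of the family `v` (discrepancy in all dimensions).
-/

set_option autoImplicit false

namespace Pool.Agent.Helper70.LA

open Finset

variable {ι : Type} [Fintype ι] [DecidableEq ι] {L : ℕ}

/-- the alternating sum of the members of the family has only one marginal left -/
theorem fam_marginal (v : Finset ι → (ι → ℕ) → (ι × Fin L → Bool) → ℝ) (I : Finset ι) (r : ι → ℕ)
    (hm : ∀ J ⊆ I, J ≠ I → ∀ i ∈ J, EU (low i (r i)) (v J r) =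
        fun x => - EU (low i (r i)) (fun x => sg i (r i) x * v (J.erase i) r x) x)
    (i : ι) (hi : i ∈ I) (x : ι × Fin L → Bool) :
    EU (low i (r i)) (fun x => ∑ J ∈ I.powerset.erase I, (∏ j ∈ I \ J, sg j (r j) x) * v J r x) x =
      EU (low i (r i)) (fun x => sg i (r i) x * v (I.erase i) r x) x := by
  have h1 := EU_sum (low i (r i)) (I.powerset.erase I)
    (fun J x => (∏ j ∈ I \ J, sg j (r j) x) * v J r x) x
  have hmem : I.erase i ∈ I.powerset.erase I := by
    rw [Finset.mem_erase, Finset.mem_powerset]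
    refine ⟨?_, Finset.erase_subset _ _⟩
    intro h
    rw [← h] at hi
    exact (Finset.notMem_erase i I) (by rw [h] at hi; rw [h]; exact hi)
  have hs : I \ I.erase i = {i} := by
    ext j
    simp only [Finset.mem_sdiff, Finset.mem_erase, Finset.mem_singleton]
    constructor
    · rintro ⟨h1, h2⟩
      by_contra h3
      exact h2 ⟨h3, h1⟩
    · rintro rfl
      exact ⟨hi, fun h => h.1 rfl⟩
  refine h1.trans ?_
  rw [← Finset.add_sum_erase _ _ hmem]
  have h2 : EU (low i (r i)) (fun x => (∏ j ∈ I \ I.erase i, sg j (r j) x) * v (I.erase i) r x) x =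
      EU (low i (r i)) (fun x => sg i (r i) x * v (I.erase i) r x) x := by
    rw [hs]
    simp only [Finset.prod_singleton]
  rw [h2]
  -- the remaining terms cancel in pairs
  have key : ∀ J ⊆ I, i ∉ J → insert i J ≠ I →
      EU (low i (r i)) (fun x => (∏ j ∈ I \ J, sg j (r j) x) * v J r x) x +
      EU (low i (r i)) (fun x => (∏ j ∈ I \ insert i J, sg j (r j) x) * v (insert i J) r x) x
        = 0 := by
    intro J hJ hiJ hne
    have hinv : ∀ x y : ι × Fin L → Bool,
        (∏ j ∈ I \ insert i J, sg j (r j) (mix (low i (r i)) x y)) =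
          ∏ j ∈ I \ insert i J, sg j (r j) x := by
      intro x y
      refine Finset.prod_congr rfl fun j hj => ?_
      refine sg_mix (r j) (r i) (Or.inl ?_) x y
      rintro rfl
      rw [Finset.mem_sdiff] at hj
      exact hj.2 (Finset.mem_insert_self _ _)
    have e1 : (fun x => (∏ j ∈ I \ J, sg j (r j) x) * v J r x) =
        fun x => (∏ j ∈ I \ insert i J, sg j (r j) x) * (sg i (r i) x * v J r x) := by
      funext x
      have hsd : I \ J = insert i (I \ insert i J) := by
        ext j
        simp only [Finset.mem_sdiff, Finset.mem_insert]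
        constructor
        · rintro ⟨h1, h2⟩
          by_cases h3 : j = i
          · exact Or.inl h3
          · exact Or.inr ⟨h1, fun h => h.elim h3 h2⟩
        · rintro (rfl | ⟨h1, h2⟩)
          · exact ⟨hi, hiJ⟩
          · exact ⟨h1, fun h => h2 (Or.inr h)⟩
      rw [hsd, Finset.prod_insert]
      · ring
      · rw [Finset.mem_sdiff]
        exact fun h => h.2 (Finset.mem_insert_self _ _)
    rw [e1]
    rw [EU_mul_inv hinv (fun x => sg i (r i) x * v J r x) x,
      EU_mul_inv hinv (fun x => v (insert i J) r x) x]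
    have h3 := congrFun (hm (insert i J) (Finset.insert_subset hi hJ) hne i
      (Finset.mem_insert_self _ _)) x
    rw [Finset.erase_insert hiJ] at h3
    have h4 : EU (low i (r i)) (fun x => v (insert i J) r x) x =
        - EU (low i (r i)) (fun x => sg i (r i) x * v J r x) x := h3
    rw [h4]
    ring
  have h3 : ∑ J ∈ (I.powerset.erase I).erase (I.erase i),
      EU (low i (r i)) (fun x => (∏ j ∈ I \ J, sg j (r j) x) * v J r x) x = 0 := by
    refine Finset.sum_involution (fun J _ => if i ∈ J then J.erase i else insert i J) ?_ ?_ ?_ ?_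
    · intro J hJ
      rw [Finset.mem_erase, Finset.mem_erase, Finset.mem_powerset] at hJ
      by_cases hiJ : i ∈ J
      · rw [if_pos hiJ]
        have := key (J.erase i) ((Finset.erase_subset _ _).trans hJ.2.2)
          (Finset.notMem_erase _ _) (by rw [Finset.insert_erase hiJ]; exact hJ.2.1)
        rw [Finset.insert_erase hiJ] at this
        rw [add_comm]
        exact this
      · rw [if_neg hiJ]
        refine key J hJ.2.2 hiJ ?_
        intro h
        apply hJ.1
        rw [← h, Finset.erase_insert hiJ]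
    · intro J hJ _ h
      by_cases hiJ : i ∈ J
      · rw [if_pos hiJ] at h
        exact (Finset.notMem_erase i J) (by rw [h]; exact hiJ)
      · rw [if_neg hiJ] at h
        exact hiJ (by rw [← h]; exact Finset.mem_insert_self _ _)
    · intro J hJ
      rw [Finset.mem_erase, Finset.mem_erase, Finset.mem_powerset] at hJ
      by_cases hiJ : i ∈ J
      · rw [if_pos hiJ, Finset.mem_erase, Finset.mem_erase, Finset.mem_powerset]
        refine ⟨?_, ?_, (Finset.erase_subset _ _).trans hJ.2.2⟩
        · intro h
          apply hJ.2.1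
          rw [← Finset.insert_erase hiJ, h, Finset.insert_erase hi]
        · intro h
          exact (Finset.notMem_erase i J) (by rw [h]; exact hi)
      · rw [if_neg hiJ, Finset.mem_erase, Finset.mem_erase, Finset.mem_powerset]
        refine ⟨?_, ?_, Finset.insert_subset hi hJ.2.2⟩
        · intro h
          exact (Finset.notMem_erase i I) (by rw [← h]; exact Finset.mem_insert_self _ _)
        · intro h
          apply hJ.1
          rw [← h, Finset.erase_insert hiJ]
    · intro J hJ
      by_cases hiJ : i ∈ J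
      · simp only [if_pos hiJ, if_neg (Finset.notMem_erase i J), Finset.insert_erase hiJ]
      · simp only [if_neg hiJ, if_pos (Finset.mem_insert_self i J), Finset.erase_insert hiJ]
  rw [h3, add_zero]

/-- one member of the family is constructed from the smaller ones -/
theorem fam_step (k : ℕ) (X : ℕ → Set (ι × Fin L → Bool))
    (hX : ∀ j < k, X j ⊆ X (j + 1)) (κ : ℝ) (hκ : κ ≤ (1 / (6 * 8 ^ k)) ^ k / 2)
    (hsec : ∀ j < k, ∀ x ∈ X j, ∀ S : Finset ι, ∀ r : ι → ℕ,
      EU (US (fun i => low i (r i)) S) (ind (X (j + 1))ᶜ) x ≤ κ) (q : ℕ) (hq : q < k)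
    (v : Finset ι → (ι → ℕ) → (ι × Fin L → Bool) → ℝ)
    (hsup : ∀ I : Finset ι, I.card ≤ q → ∀ r, ∀ x ∉ X I.card, v I r x = 0)
    (hm : ∀ I : Finset ι, I.card ≤ q → ∀ r, ∀ i ∈ I, EU (low i (r i)) (v I r) =
        fun x => - EU (low i (r i)) (fun x => sg i (r i) x * v (I.erase i) r x) x)
    (I : Finset ι) (hI : I.card = q + 1) (r : ι → ℕ) :
    ∃ w : (ι × Fin L → Bool) → ℝ, (∀ x ∉ X I.card, w x = 0) ∧
      (∀ i ∈ I, EU (low i (r i)) w =
        fun x => - EU (low i (r i)) (fun x => sg i (r i) x * v (I.erase i) r x) x) ∧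
      (av fun x => w x ^ 2) ≤ 4 ^ (I.card + 1) *
        ∑ i ∈ I, av fun x => EU (low i (r i)) (fun x => sg i (r i) x * v (I.erase i) r x) x ^ 2 := by
  have hXm : ∀ b ≤ k, ∀ a ≤ b, X a ⊆ X b := by
    intro b
    induction b with
    | zero =>
      intro _ a ha
      rw [Nat.le_zero.1 ha]
    | succ b ih =>
      intro hb a ha
      rcases Nat.lt_or_ge a (b + 1) with h | h
      · exact (ih (by omega) a (by omega)).trans (hX b (by omega))
      · rw [le_antisymm ha h]
  set ε : ℝ := 1 / (6 * 8 ^ k) with hε
  have h8 : (1 : ℝ) ≤ 8 ^ k := one_le_pow₀ (by norm_num)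
  have hε0 : 0 < ε := by rw [hε]; positivity
  have hε1 : ε ≤ 1 := by
    rw [hε, div_le_one (by positivity)]
    linarith
  have hcard : I.card ≤ k := by omega
  have hκ' : κ ≤ ε ^ I.card / 2 := by
    refine hκ.trans ?_
    have := pow_le_pow_of_le_one hε0.le hε1 hcard
    linarith
  obtain ⟨Q, hXQ, hQX, hQ⟩ := core (fun i => low (L := L) i (r i)) I (X q) (X (q + 1))
    (hX q hq) κ ε hε0 hε1 hκ' (fun x hx S _ => hsec q hq x hx S r)
  set ψ : (ι × Fin L → Bool) → ℝ := fun x =>
    ∑ J ∈ I.powerset.erase I, (∏ j ∈ I \ J, sg j (r j) x) * v J r x with hψ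
  have hsub : ∀ J ⊆ I, J ≠ I → J.card ≤ q := by
    intro J hJ hne
    have := Finset.card_lt_card (Finset.ssubset_iff_subset_ne.2 ⟨hJ, hne⟩)
    omega
  have hψ0 : ∀ x ∉ Q, ψ x = 0 := by
    intro x hx
    rw [hψ]
    refine Finset.sum_eq_zero fun J hJ => ?_
    rw [Finset.mem_erase, Finset.mem_powerset] at hJ
    have hJq := hsub J hJ.2 hJ.1
    rw [hsup J hJq r x (fun h => hx (hXQ (hXm q (by omega) _ hJq h))), mul_zero]
  have hη1 : 6 * 4 ^ I.card * (2 ^ I.card * ε) ≤ 1 := by
    have e : (6 : ℝ) * 4 ^ I.card * (2 ^ I.card * ε) = 6 * 8 ^ I.card * ε := by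
      have : (8 : ℝ) ^ I.card = 4 ^ I.card * 2 ^ I.card := by
        rw [← mul_pow]; norm_num
      rw [this]; ring
    rw [e, hε, mul_one_div, div_le_one (by positivity)]
    have := pow_le_pow_right₀ (show (1 : ℝ) ≤ 8 by norm_num) hcard
    linarith
  obtain ⟨u, hu0, hum, hun⟩ := eel (fun i => low (L := L) i (r i)) I
    (low_pairwise r I) Q (2 ^ I.card * ε) (by positivity) hη1 hQ ψ hψ0
  have hmarg : ∀ i ∈ I, ∀ x, EU (low i (r i)) ψ x =
      EU (low i (r i)) (fun x => sg i (r i) x * v (I.erase i) r x) x := by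
    intro i hi x
    exact fam_marginal v I r (fun J hJ hne i hiJ => hm J (hsub J hJ hne) r i hiJ) i hi x
  refine ⟨fun x => - u x, ?_, ?_, ?_⟩
  · intro x hx
    rw [hI] at hx
    show - u x = 0
    rw [hu0 x (fun h => hx (hQX h)), neg_zero]
  · intro i hi
    funext x
    have h1 := EU_neg (low i (r i)) u x
    rw [h1]
    have h2 : EU (low i (r i)) u x = EU (low i (r i)) ψ x := congrFun (hum i hi) x
    rw [h2, hmarg i hi x]
  · have h1 : (av fun x => (- u x) ^ 2) = av fun x => u x ^ 2 := by
      congr 1
      funext x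
      ring
    rw [h1]
    refine hun.trans (le_of_eq ?_)
    congr 1
    refine Finset.sum_congr rfl fun i hi => ?_
    congr 1
    funext x
    show EU (low i (r i)) ψ x ^ 2 = _
    rw [hmarg i hi x]

theorem exists_family (k : ℕ) (hk : k = Fintype.card ι) (X : ℕ → Set (ι × Fin L → Bool))
    (hX : ∀ j < k, X j ⊆ X (j + 1)) (κ : ℝ) (hκ : κ ≤ (1 / (6 * 8 ^ k)) ^ k / 2)
    (hsec : ∀ j < k, ∀ x ∈ X j, ∀ S : Finset ι, ∀ r : ι → ℕ,
      EU (US (fun i => low i (r i)) S) (ind (X (j + 1))ᶜ) x ≤ κ) :
    ∃ v : Finset ι → (ι → ℕ) → (ι × Fin L → Bool) → ℝ,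
      (∀ r, v ∅ r = ind (X 0)) ∧
      (∀ I r r', (∀ i ∈ I, r i = r' i) → v I r = v I r') ∧
      (∀ I r, ∀ x ∉ X I.card, v I r x = 0) ∧
      (∀ I r, ∀ i ∈ I, EU (low i (r i)) (v I r) =
        fun x => - EU (low i (r i)) (fun x => sg i (r i) x * v (I.erase i) r x) x) ∧
      (∀ I r, I.Nonempty → (av fun x => v I r x ^ 2) ≤ 4 ^ (I.card + 1) *
        ∑ i ∈ I, av fun x => EU (low i (r i)) (fun x => sg i (r i) x * v (I.erase i) r x) x ^ 2) := by
  have main : ∀ q ≤ k, ∃ v : Finset ι → (ι → ℕ) → (ι × Fin L → Bool) → ℝ,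
      (∀ r, v ∅ r = ind (X 0)) ∧
      (∀ I r r', (∀ i ∈ I, r i = r' i) → v I r = v I r') ∧
      (∀ I : Finset ι, I.card ≤ q → ∀ r, ∀ x ∉ X I.card, v I r x = 0) ∧
      (∀ I : Finset ι, I.card ≤ q → ∀ r, ∀ i ∈ I, EU (low i (r i)) (v I r) =
        fun x => - EU (low i (r i)) (fun x => sg i (r i) x * v (I.erase i) r x) x) ∧
      (∀ I : Finset ι, I.card ≤ q → ∀ r, I.Nonempty → (av fun x => v I r x ^ 2) ≤
        4 ^ (I.card + 1) *
        ∑ i ∈ I, av fun x => EU (low i (r i))
          (fun x => sg i (r i) x * v (I.erase i) r x) x ^ 2) := by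
    intro q
    induction q with
    | zero =>
      intro _
      refine ⟨fun _ _ => ind (X 0), fun _ => rfl, fun _ _ _ _ => rfl, ?_, ?_, ?_⟩
      · intro I hI r x hx
        rw [Nat.le_zero.1 hI] at hx
        exact ind_of_notMem hx
      · intro I hI r i hi
        rw [Nat.le_zero, Finset.card_eq_zero] at hI
        rw [hI] at hi
        exact absurd hi (Finset.notMem_empty i)
      · intro I hI r hne
        rw [Nat.le_zero, Finset.card_eq_zero] at hI
        rw [hI] at hne
        exact absurd hne Finset.not_nonempty_empty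
    | succ q ih =>
      intro hq
      obtain ⟨v, hv0, hdep, hsup, hm, hn⟩ := ih (by omega)
      have hstep := fun (I : Finset ι) (hI : I.card = q + 1) (r : ι → ℕ) =>
        fam_step k X hX κ hκ hsec q (by omega) v hsup hm I hI r
      choose w hw0 hwm hwn using hstep
      -- the new family
      set v' : Finset ι → (ι → ℕ) → (ι × Fin L → Bool) → ℝ := fun I r =>
        if hI : I.card = q + 1 then w I hI (fun i => if i ∈ I then r i else 0) else v I r with hv'
      have hold : ∀ I : Finset ι, I.card ≠ q + 1 → ∀ r, v' I r = v I r := by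
        intro I hI r
        rw [hv']
        simp only [dif_neg hI]
      have hnew : ∀ (I : Finset ι) (hI : I.card = q + 1) (r : ι → ℕ),
          v' I r = w I hI (fun i => if i ∈ I then r i else 0) := by
        intro I hI r
        rw [hv']
        simp only [dif_pos hI]
      have herase : ∀ (I : Finset ι), I.card = q + 1 → ∀ i ∈ I, ∀ r : ι → ℕ,
          v (I.erase i) (fun i => if i ∈ I then r i else 0) = v' (I.erase i) r := by
        intro I hI i hi r
        rw [hold (I.erase i) (by rw [Finset.card_erase_of_mem hi]; omega) r]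
        refine hdep _ _ _ fun j hj => ?_
        rw [if_pos (Finset.mem_of_mem_erase hj)]
      have herase' : ∀ (I : Finset ι), I.card ≤ q → ∀ i ∈ I, ∀ r : ι → ℕ,
          v' (I.erase i) r = v (I.erase i) r := by
        intro I hI i hi r
        exact hold (I.erase i) (by rw [Finset.card_erase_of_mem hi]; omega) r
      refine ⟨v', ?_, ?_, ?_, ?_, ?_⟩
      · intro r
        rw [hold ∅ (by rw [Finset.card_empty]; omega) r]
        exact hv0 r
      · intro I r r' h
        by_cases hI : I.card = q + 1
        · rw [hnew I hI r, hnew I hI r']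
          congr 1
          funext i
          by_cases hi : i ∈ I
          · rw [if_pos hi, if_pos hi, h i hi]
          · rw [if_neg hi, if_neg hi]
        · rw [hold I hI r, hold I hI r']
          exact hdep I r r' h
      · intro I hI r x hx
        by_cases hI' : I.card = q + 1
        · rw [hnew I hI' r]
          exact hw0 I hI' _ x hx
        · rw [hold I hI' r]
          exact hsup I (by omega) r x hx
      · intro I hI r i hi
        by_cases hI' : I.card = q + 1
        · rw [hnew I hI' r]
          have h := hwm I hI' (fun i => if i ∈ I then r i else 0) i hi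
          rw [herase I hI' i hi r] at h
          simp only [if_pos hi] at h
          exact h
        · rw [hold I hI' r, herase' I (by omega) i hi r]
          exact hm I (by omega) r i hi
      · intro I hI r hne
        by_cases hI' : I.card = q + 1
        · rw [hnew I hI' r]
          refine (hwn I hI' (fun i => if i ∈ I then r i else 0)).trans (le_of_eq ?_)
          congr 1
          refine Finset.sum_congr rfl fun i hi => ?_
          rw [herase I hI' i hi r]
          simp only [if_pos hi]
        · rw [hold I hI' r]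
          refine (hn I (by omega) r hne).trans (le_of_eq ?_)
          congr 1
          refine Finset.sum_congr rfl fun i hi => ?_
          rw [herase' I (by omega) i hi r]
  obtain ⟨v, hv0, hdep, hsup, hm, hn⟩ := main k le_rfl
  have hcard : ∀ I : Finset ι, I.card ≤ k := fun I => by rw [hk]; exact Finset.card_le_univ I
  exact ⟨v, hv0, hdep, fun I => hsup I (hcard I), fun I => hm I (hcard I),
    fun I => hn I (hcard I)⟩

end Pool.Agent.Helper70.LA
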